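import Pool.Agent.Helper89.TQ.Ctx

set_option autoImplicit false
set_option linter.all false

namespace Pool.Agent.Helper34.TQ

open Pool.Agent.Helper89.TQ

theorem c2_11_33_33_k3 {n1 n2 n3 A1 A2 A3 B1 B2 B3 m11_1 m11_2 m11_3 m12_1 m12_2 m12_3 m13_1 m13_2 m13_3 m22_1 m22_2 m22_3 m33_1 m33_2 m33_3 : ℤ}
    (C : Ctx2 n1 n2 n3 A1 A2 A3 B1 B2 B3 m11_1 m11_2 m11_3 m12_1 m12_2 m12_3 m13_1 m13_2 m13_3 m22_1 m22_2 m22_3 m33_1 m33_2 m33_3)
    (e0 : 0 < B1)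
    (e1 : 0 < A3)
    (s1 : 3 * A1 + 0 * B1 ≤ m11_1 + m33_1 + m33_1)
    (s2 : 3 * A2 + 0 * B2 ≤ m11_2 + m33_2 + m33_2)
    (s3 : 3 * A3 + 0 * B3 ≤ m11_3 + m33_3 + m33_3) : False := by
  have h0 := C.a0
  have h1 := C.a1
  have h2 := C.a2
  have h3 := C.a3
  have h4 := C.a4
  have h5 := C.a5
  have h6 := C.b0
  have h7 := C.b1
  have h8 := C.b2
  have h9 := C.b3
  have h10 := C.b4
  have h11 := C.b5
  have h12 := C.o0
  have h13 := C.o1
  have h14 := C.o2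
  have h17 := C.f11_0
  have h18 := C.f11_1
  have h19 := C.f11_2
  have h20 := C.f33_0
  have h21 := C.f33_1
  have h23 := C.f33_3
  have h24 := C.f33_4
  have h26 := C.f33_6
  have h27 := C.f33_7
  have h29 := C.f12_0
  have h30 := C.f12_1
  have h32 := C.f12_3
  have h33 := C.f12_4
  have h35 := C.f12_6
  rcases C.f33_2 with g1 | g1 <;> (try omega) <;>
  rcases C.f33_5 with g2 | g2 <;> (try omega) <;>
  rcases C.f33_8 with g3 | g3 <;> (try omega) <;>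
  rcases C.t23 with ⟨g4, g5⟩ | ⟨g4, g5⟩ <;> (try omega) <;>
  rcases C.t12 with ⟨g6, g7⟩ | ⟨g6, g7⟩ <;> (try omega) <;>
  rcases (by simpa only [not_and_or, not_le] using C.tmpp :
    n1 < A1 + 1 ∨ A2 < A1 + 2 ∨ B1 < 1 ∨ B1 + n2 < B2 + 2) with q | q | q | q <;> (try omega) <;>
  rcases (by simpa only [not_and_or, not_le] using C.p11_33A e0 e1 :
    m11_1 + m33_1 < 2 * A1 ∨ m11_2 + m33_2 < 2 * A2 ∨ m11_3 + m33_3 < 2 * A3) with r | r | r <;> (try omega) <;>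
  rcases (by simpa only [not_and_or, not_le] using C.p11_33B e0 e1 :
    m11_1 + m33_1 < 2 * B1 ∨ m11_2 + m33_2 < 2 * B2 ∨ m11_3 + m33_3 < 2 * B3) with v | v | v <;> (try omega) <;>
  rcases C.f12_2 with w1 | w1 <;> (try omega) <;>
  rcases C.f12_5 with w2 | w2 <;> (try omega) <;>
  rcases (by simpa only [not_and_or, not_le] using C.p12_33A (by omega) (by omega) (by omega) :
    m12_1 + m33_1 < 2 * A1 ∨ m12_2 + m33_2 < 2 * A2 ∨ m12_3 + m33_3 < 2 * A3) with w | w | w <;> (try omega) <;>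
  rcases (by simpa only [not_and_or, not_le] using C.p12_33B (by omega) (by omega) (by omega) :
    m12_1 + m33_1 < 2 * B1 ∨ m12_2 + m33_2 < 2 * B2 ∨ m12_3 + m33_3 < 2 * B3) with x | x | x <;> (try omega) <;>
  rcases (by simpa only [not_and_or, not_le] using C.tmzp :
    n1 < A1 + 1 ∨ A2 < A1 + 1 ∨ A3 < A2 + 1 ∨ B1 < 1 ∨ B1 + n2 < B2 + 1 ∨ B2 + n3 < B3 + 1)
      with y | y | y | y | y | y <;> (try omega) <;>
  rcases (by simpa only [not_and_or, not_le] using C.tzmp :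
    A1 + n2 < A2 + 1 ∨ A3 < A2 + 2 ∨ B2 < B1 + 1 ∨ B2 + n3 < B3 + 2)
      with z | z | z | z <;> (try omega) <;>
  rcases (by simpa only [not_and_or, not_le] using C.tzpm :
    A2 < A1 + 1 ∨ A2 + n3 < A3 + 2 ∨ B1 + n2 < B2 + 1 ∨ B3 < B2 + 2)
      with k | k | k | k <;> (try omega) <;>
  (have k1 := C.tpmm
   have k2 := C.tpmz
   have k3 := C.tpzm
   omega)

end Pool.Agent.Helper34.TQ
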